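import Pool.Agent.Helper69.Enayat.Main

/-!
# An Enayat model which is not conservative over a proper elementary cut
-/

set_option autoImplicit false

namespace Pool.Agent.Results.MP_91901e_lc.EnayatNonconservative

open FirstOrder FirstOrder.Language Pool.Agent.Helper30.SatB Pool.Agent.Helper69.Enayat

/-- There is a countable Enayat model `M` of Peano arithmetic (and of true arithmetic) whose
standard cut `K` is a proper elementary cut over which `M` is not conservative. -/
theorem result : ∃ (M : Type) (_ : arithLang.Structure M),
    IsEnayat M ∧ (ℕ ≅[arithLang] M) ∧
      ∃ K : arithLang.ElementarySubstructure M,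
        (∀ x : M, x ∈ K ↔ ∃ n : ℕ, x = pNum M n) ∧
          IsCut M K ∧ IsProper M K ∧ ¬ IsConservative M K :=
  main

end Pool.Agent.Results.MP_91901e_lc.EnayatNonconservative
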